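import Pool.Agent.Lib.MP_37c7bf_co_h5.Step

set_option autoImplicit false

namespace Pool.Agent.H5Rig

open Finset

universe u

/-- the type of codes of pieces with at most `n` vertices over a set of at most `t` vertices -/
abbrev Ty (n t : ℕ) : Type :=
  (Fin n → Prop) × (Fin n → Fin n → Prop) × (Fin n → Fin t → Prop)

noncomputable instance (n t : ℕ) : Fintype (Ty n t) := by
  classical
  exact inferInstance

/-- the size bound -/
noncomputable def kb (d t : ℕ) : ℕ → ℕ
  | 0 => 0
  | k + 1 => (Fintype.card (Ty (kb d t k + 1) t) * (d * t + d * d + d + 1)) * (kb d t k + 1)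

variable {V : Type u} [DecidableEq V] {d : ℕ} {G : SimpleGraph V} {X : Finset V}

theorem exists_root (le : V → V → Prop) (hrefl : ∀ v, le v v)
    (htrans : ∀ u v w, le u v → le v w → le u w) (hanti : ∀ u v, le u v → le v u → u = v)
    (Q : Finset V) (v : V) (hv : v ∈ Q) :
    ∃ r ∈ Q, (∀ u ∈ Q, le u r → u = r) ∧ le r v := by
  classical
  -- strong induction on the number of elements below v
  induction hn : (Q.filter (fun u => le u v)).card using Nat.strong_induction_on generalizing v with
  | _ n ih =>
    by_cases hmin : ∀ u ∈ Q, le u v → u = v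
    · exact ⟨v, hv, hmin, hrefl v⟩
    · push Not at hmin
      obtain ⟨u, hu, huv, hne⟩ := hmin
      have hlt : (Q.filter (fun x => le x u)).card < n := by
        rw [← hn]
        apply Finset.card_lt_card
        refine ⟨?_, ?_⟩
        · intro x hx
          rw [Finset.mem_filter] at hx ⊢
          exact ⟨hx.1, htrans _ _ _ hx.2 huv⟩
        · intro h
          have h1 : v ∈ Q.filter (fun x => le x v) := Finset.mem_filter.2 ⟨hv, hrefl v⟩
          have h2 := h h1
          rw [Finset.mem_filter] at h2
          exact hne (hanti _ _ huv h2.2)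
      obtain ⟨r, hr, hrmin, hru⟩ := ih _ hlt u hu rfl
      exact ⟨r, hr, hrmin, htrans _ _ _ hru huv⟩

omit [DecidableEq V] in
/-- two embedded pieces with the same code are isomorphic over `S` -/
theorem iso_of_code {n t : ℕ} (S A B : Finset V) (eA : A ↪ Fin n) (eB : B ↪ Fin n)
    (g : S ↪ Fin t)
    (h1 : ∀ i, i ∈ Set.range eA ↔ i ∈ Set.range eB)
    (h2 : ∀ i j, (∃ v w : A, eA v = i ∧ eA w = j ∧ G.Adj (v : V) (w : V)) ↔
      (∃ v w : B, eB v = i ∧ eB w = j ∧ G.Adj (v : V) (w : V)))
    (h3 : ∀ i l, (∃ (v : A) (s : S), eA v = i ∧ g s = l ∧ G.Adj (v : V) (s : V)) ↔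
      (∃ (v : B) (s : S), eB v = i ∧ g s = l ∧ G.Adj (v : V) (s : V))) :
    ∃ σ : A ≃ B, (∀ v w : A, G.Adj (σ v : V) (σ w : V) ↔ G.Adj (v : V) (w : V)) ∧
      ∀ v : A, ∀ s ∈ S, G.Adj (σ v : V) s ↔ G.Adj (v : V) s := by
  classical
  have hset : Set.range eA = Set.range eB := Set.ext h1
  set σ : A ≃ B := (Equiv.ofInjective eA eA.injective).trans
    ((Equiv.setCongr hset).trans (Equiv.ofInjective eB eB.injective).symm) with hσ
  have key : ∀ v : A, eB (σ v) = eA v := by
    intro v
    have := Equiv.apply_ofInjective_symm (f := eB) eB.injective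
      ((Equiv.setCongr hset) ((Equiv.ofInjective eA eA.injective) v))
    rw [hσ]
    simp only [Equiv.trans_apply]
    rw [this]
    simp
  refine ⟨σ, ?_, ?_⟩
  · intro v w
    constructor
    · intro h
      obtain ⟨v', w', hv', hw', hadj⟩ := (h2 (eA v) (eA w)).2 ⟨σ v, σ w, key v, key w, h⟩
      rw [eA.injective hv', eA.injective hw'] at hadj
      exact hadj
    · intro h
      obtain ⟨v', w', hv', hw', hadj⟩ := (h2 (eA v) (eA w)).1 ⟨v, w, rfl, rfl, h⟩
      rw [← key v] at hv'
      rw [← key w] at hw'
      rw [eB.injective hv', eB.injective hw'] at hadj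
      exact hadj
  · intro v s hs
    constructor
    · intro h
      obtain ⟨v', s', hv', hs', hadj⟩ := (h3 (eA v) (g ⟨s, hs⟩)).2 ⟨σ v, ⟨s, hs⟩, key v, rfl, h⟩
      rw [eA.injective hv', g.injective hs'] at hadj
      exact hadj
    · intro h
      obtain ⟨v', s', hv', hs', hadj⟩ := (h3 (eA v) (g ⟨s, hs⟩)).1 ⟨v, ⟨s, hs⟩, rfl, rfl, h⟩
      rw [← key v] at hv'
      rw [eB.injective hv', g.injective hs'] at hadj
      exact hadj

theorem card_bound (t : ℕ) (hno : ∀ Y, ¬ Step d G X Y) (le : V → V → Prop)
    (hrefl : ∀ v, le v v)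
    (htrans : ∀ u v w, le u v → le v w → le u w) (hanti : ∀ u v, le u v → le v u → u = v)
    (hforest : ∀ u v w, le u w → le v w → le u v ∨ le v u)
    (hadj : ∀ u v, G.Adj u v → le u v ∨ le v u) (k : ℕ) :
    ∀ S Q : Finset V, S ⊆ X → Q ⊆ X → Disjoint Q S → S.card + k ≤ t →
      (∀ v ∈ Q, ∀ w ∈ X, G.Adj v w → w ∈ Q ∪ S) →
      (∀ v ∈ Q, ∀ C : Finset V, C ⊆ Q → (∀ u ∈ C, le u v) → C.card ≤ k) →
      Q.card ≤ kb d t k := by
  classical
  induction k with
  | zero =>
    intro S Q _ _ _ _ _ hch
    rcases Q.eq_empty_or_nonempty with h | ⟨v, hv⟩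
    · simp [h]
    · have := hch v hv {v} (by simpa using hv) (by simp [hrefl])
      simp at this
  | succ k ih =>
    intro S Q hSX hQX hQS hcard hcl hch
    set n := kb d t k + 1 with hn
    set R := Q.filter (fun r => ∀ u ∈ Q, le u r → u = r) with hR
    set T : V → Finset V := fun r => Q.filter (fun v => le r v) with hT
    have hRmem : ∀ r, r ∈ R ↔ r ∈ Q ∧ ∀ u ∈ Q, le u r → u = r := by
      intro r; rw [hR, Finset.mem_filter]
    have hTmem : ∀ r v, v ∈ T r ↔ v ∈ Q ∧ le r v := by
      intro r v; rw [hT]; simp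
    -- neighbours stay inside
    have hclT : ∀ r ∈ R, ∀ v ∈ T r, ∀ w ∈ X, G.Adj v w → w ∈ T r ∪ S := by
      intro r hr v hv w hw hvw
      rw [hTmem] at hv
      rw [hRmem] at hr
      rcases Finset.mem_union.1 (hcl v hv.1 w hw hvw) with h | h
      · apply Finset.mem_union_left
        rw [hTmem]
        refine ⟨h, ?_⟩
        rcases hadj v w hvw with h1 | h1
        · exact htrans _ _ _ hv.2 h1
        · rcases hforest r w v hv.2 h1 with h2 | h2
          · exact h2
          · rw [hr.2 w h h2]; exact hrefl r
      · exact Finset.mem_union_right _ h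
    -- sizes of the pieces
    have hTcard : ∀ r ∈ R, (T r).card ≤ n := by
      intro r hr
      have hr' := (hRmem r).1 hr
      have hrT : r ∈ T r := (hTmem r r).2 ⟨hr'.1, hrefl r⟩
      have hrS : r ∉ S := fun h => Finset.disjoint_left.1 hQS hr'.1 h
      have h1 := ih (insert r S) ((T r).erase r) ?_ ?_ ?_ ?_ ?_ ?_
      · have h2 : ((T r).erase r).card + 1 = (T r).card := Finset.card_erase_add_one hrT
        omega
      · exact Finset.insert_subset (hQX hr'.1) hSX
      · intro x hx
        exact hQX ((hTmem r x).1 (Finset.mem_of_mem_erase hx)).1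
      · rw [Finset.disjoint_left]
        intro x hx hx2
        rcases Finset.mem_insert.1 hx2 with h | h
        · exact Finset.ne_of_mem_erase hx h
        · exact Finset.disjoint_left.1 hQS ((hTmem r x).1 (Finset.mem_of_mem_erase hx)).1 h
      · rw [Finset.card_insert_of_notMem hrS]; omega
      · intro v hv w hw hvw
        rcases Finset.mem_union.1 (hclT r hr v (Finset.mem_of_mem_erase hv) w hw hvw) with h | h
        · by_cases hwr : w = r
          · exact Finset.mem_union_right _ (by rw [hwr]; exact Finset.mem_insert_self _ _)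
          · exact Finset.mem_union_left _ (Finset.mem_erase.2 ⟨hwr, h⟩)
        · exact Finset.mem_union_right _ (Finset.mem_insert_of_mem h)
      · intro v hv C hC hCle
        have hv' := (hTmem r v).1 (Finset.mem_of_mem_erase hv)
        have hrC : r ∉ C := fun h => Finset.ne_of_mem_erase (hC h) rfl
        have h2 := hch v hv'.1 (insert r C) ?_ ?_
        · rw [Finset.card_insert_of_notMem hrC] at h2; omega
        · apply Finset.insert_subset hr'.1
          intro x hx
          exact ((hTmem r x).1 (Finset.mem_of_mem_erase (hC hx))).1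
        · intro x hx
          rcases Finset.mem_insert.1 hx with h | h
          · rw [h]; exact hv'.2
          · exact hCle x h
    -- few roots
    have hRcard : R.card ≤ Fintype.card (Ty n t) * (d * t + d * d + d + 1) := by
      by_contra hlt
      push Not at hlt
      have hg : Nonempty (S ↪ Fin t) := by
        apply Function.Embedding.nonempty_of_card_le
        simp; omega
      obtain ⟨g⟩ := hg
      have he : ∀ r : V, ∃ e : T r → Fin n, r ∈ R → Function.Injective e := by
        intro r
        by_cases hr : r ∈ R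
        · have : Nonempty (T r ↪ Fin n) := by
            apply Function.Embedding.nonempty_of_card_le
            simpa using hTcard r hr
          obtain ⟨e⟩ := this
          exact ⟨e, fun _ => e.injective⟩
        · exact ⟨fun _ => ⟨0, by omega⟩, fun h => absurd h hr⟩
      choose e he using he
      set code : V → Ty n t := fun r =>
        (fun i => i ∈ Set.range (e r),
         fun i j => ∃ v w : T r, e r v = i ∧ e r w = j ∧ G.Adj (v : V) (w : V),
         fun i l => ∃ (v : T r) (s : S), e r v = i ∧ g s = l ∧ G.Adj (v : V) (s : V)) with hcode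
      obtain ⟨y, -, hy⟩ := Finset.exists_lt_card_fiber_of_mul_lt_card_of_maps_to
        (s := R) (t := (Finset.univ : Finset (Ty n t))) (f := code)
        (n := d * t + d * d + d + 1) (fun a _ => Finset.mem_univ _)
        (by rw [Finset.card_univ]; exact hlt)
      set Ry := R.filter (fun x => code x = y) with hRy
      obtain ⟨m, hm⟩ : ∃ m, Ry.card = m + 1 := ⟨Ry.card - 1, by omega⟩
      have eq1 : Fin (m + 1) ≃ Ry := (finCongr hm.symm).trans Ry.equivFin.symm
      have hRyR : ∀ i, ((eq1 i : V) ∈ R ∧ code (eq1 i : V) = y) := by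
        intro i
        exact Finset.mem_filter.1 (eq1 i).2
      apply hno (X \ T (eq1 (Fin.last m) : V))
      refine ⟨S, m, fun i => T (eq1 i : V), hSX, ?_, ?_, ?_, ?_, ?_, rfl⟩
      · intro i
        have hr := (hRmem _).1 (hRyR i).1
        refine ⟨?_, ⟨(eq1 i : V), (hTmem _ _).2 ⟨hr.1, hrefl _⟩⟩, ?_⟩
        · intro x hx
          exact hQX ((hTmem _ x).1 hx).1
        · rw [Finset.disjoint_left]
          intro x hx hx2
          exact Finset.disjoint_left.1 hQS ((hTmem _ x).1 hx).1 hx2
      · intro i j hij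
        rw [Finset.disjoint_left]
        intro x hx hx2
        rw [hTmem] at hx hx2
        have hri := (hRmem _).1 (hRyR i).1
        have hrj := (hRmem _).1 (hRyR j).1
        apply hij
        apply eq1.injective
        apply Subtype.ext
        rcases hforest _ _ _ hx.2 hx2.2 with h | h
        · exact hrj.2 _ hri.1 h
        · exact (hri.2 _ hrj.1 h).symm
      · intro i v hv w hw hvw
        exact hclT _ (hRyR i).1 v hv w hw hvw
      · intro i j
        have hc : code (eq1 i : V) = code (eq1 j : V) := by rw [(hRyR i).2, (hRyR j).2]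
        rw [hcode] at hc
        simp only [Prod.mk.injEq] at hc
        obtain ⟨c1, c2, c3⟩ := hc
        exact iso_of_code S (T (eq1 i : V)) (T (eq1 j : V))
          ⟨e (eq1 i : V), he _ (hRyR i).1⟩ ⟨e (eq1 j : V), he _ (hRyR j).1⟩ g
          (fun a => iff_of_eq (congrFun c1 a))
          (fun a b => iff_of_eq (congrFun (congrFun c2 a) b))
          (fun a b => iff_of_eq (congrFun (congrFun c3 a) b))
      · rw [← hm]
        have h1 : d * S.card ≤ d * t := Nat.mul_le_mul_left _ (by omega)
        omega
    -- conclusion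
    have hcover : Q ⊆ R.biUnion T := by
      intro v hv
      obtain ⟨r, hr, hrmin, hrv⟩ := exists_root le hrefl htrans hanti Q v hv
      exact Finset.mem_biUnion.2 ⟨r, (hRmem r).2 ⟨hr, hrmin⟩, (hTmem r v).2 ⟨hv, hrv⟩⟩
    calc Q.card ≤ (R.biUnion T).card := Finset.card_le_card hcover
      _ ≤ R.card * n := Finset.card_biUnion_le_card_mul _ _ _ hTcard
      _ ≤ (Fintype.card (Ty n t) * (d * t + d * d + d + 1)) * n := Nat.mul_le_mul_right _ hRcard
      _ = kb d t (k + 1) := rfl

end Pool.Agent.H5Rig
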