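import Mathlib

/-!
# Generic rigidity in d-space, treedepth, and the twin-piece deletion rule

Definitions used in the statement of the treedepth kernel theorem.
-/

set_option autoImplicit false

namespace Pool.Agent.H5Rig

variable {V : Type*}

/-- `u` is an infinitesimal motion of the bar-and-joint framework `(G, p)` in `ℝ^d`: for every
edge `vw` the scalar product of `p v - p w` and `u v - u w` is zero. -/
def IsMotion (d : ℕ) (G : SimpleGraph V) (p u : V → Fin d → ℝ) : Prop :=
  ∀ v w, G.Adj v w → ∑ i, (p v i - p w i) * (u v i - u w i) = 0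

/-- `u` is a trivial infinitesimal motion at `p`: the restriction of an infinitesimal
isometry `x ↦ A x + b` with `A` skew-symmetric. -/
def IsTrivial (d : ℕ) (p u : V → Fin d → ℝ) : Prop :=
  ∃ (A : Fin d → Fin d → ℝ) (b : Fin d → ℝ), (∀ i j, A i j = -A j i) ∧
    ∀ v i, u v i = ∑ j, A i j * p v j + b i

/-- `G` is generically rigid in `ℝ^d`: at some realization (equivalently, at almost every
realization) every infinitesimal motion is trivial. -/
def GenRigid (d : ℕ) (G : SimpleGraph V) : Prop :=
  ∃ p : V → Fin d → ℝ, ∀ u : V → Fin d → ℝ, IsMotion d G p u → IsTrivial d p u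

/-- `G` has treedepth at most `t`: there is a forest order on the vertices (a partial order in
which the elements below any vertex form a chain) in which every vertex has at most `t` elements
below or equal to it, and any two adjacent vertices are comparable. -/
def TreedepthLE (G : SimpleGraph V) (t : ℕ) : Prop :=
  ∃ le : V → V → Prop, (∀ v, le v v) ∧ (∀ u v w, le u v → le v w → le u w) ∧
    (∀ u v, le u v → le v u → u = v) ∧ (∀ u v w, le u w → le v w → le u v ∨ le v u) ∧
    (∀ v, {u | le u v}.Finite ∧ {u | le u v}.ncard ≤ t) ∧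
    (∀ u v, G.Adj u v → le u v ∨ le v u)

/-- The deletion rule for dimension `d`, applied to the subgraph of `G` induced by the vertex
set `X`. There is a set `S ⊆ X` and a family `P 0, ..., P m` of nonempty pairwise disjoint subsets
of `X` outside `S`, such that all edges of `G[X]` leaving `P i` go to `S`, such that any two of the
pieces are isomorphic over `S` (a bijection `P i ≃ P j` preserving adjacency inside the pieces and
adjacency to each vertex of `S`), and such that there are at least `d |S| + d^2 + d + 2` pieces;
and `Y` is obtained from `X` by deleting one piece. -/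
def Step [DecidableEq V] (d : ℕ) (G : SimpleGraph V) (X Y : Finset V) : Prop :=
  ∃ (S : Finset V) (m : ℕ) (P : Fin (m + 1) → Finset V), S ⊆ X ∧
    (∀ i, P i ⊆ X ∧ (P i).Nonempty ∧ Disjoint (P i) S) ∧
    (∀ i j, i ≠ j → Disjoint (P i) (P j)) ∧
    (∀ i, ∀ v ∈ P i, ∀ w ∈ X, G.Adj v w → w ∈ P i ∪ S) ∧
    (∀ i j, ∃ σ : P i ≃ P j, (∀ v w : P i, G.Adj (σ v) (σ w) ↔ G.Adj v w) ∧
      ∀ v : P i, ∀ s ∈ S, G.Adj (σ v) s ↔ G.Adj v s) ∧
    d * S.card + d * d + d + 2 ≤ m + 1 ∧ Y = X \ P (Fin.last m)

end Pool.Agent.H5Rig
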