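import Pool.Agent.Lib.MP_37c7bf_co_h5.Bound

set_option autoImplicit false

namespace Pool.Agent.H5Rig

universe u

theorem treedepth_kernel (d t : ℕ) : ∃ N : ℕ, ∀ (V : Type u) [Fintype V] [DecidableEq V]
    (G : SimpleGraph V), TreedepthLE G t →
      ∀ X : Finset V, Relation.ReflTransGen (Step d G) Finset.univ X →
        (GenRigid d G ↔ GenRigid d (G.induce (X : Set V))) ∧
        ((∀ Y, ¬ Step d G X Y) → X.card ≤ N) := by
  refine ⟨kb d t t, ?_⟩
  intro V _ _ G hG X hX
  refine ⟨?_, ?_⟩
  · rw [genRigid_iff_univ, genRigid_induce_iff, ← Finset.coe_univ]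
    exact rigOn_steps hX
  · intro hno
    obtain ⟨le, hrefl, htrans, hanti, hforest, hfin, hadj⟩ := hG
    refine card_bound t hno le hrefl htrans hanti hforest hadj t ∅ X (by simp) subset_rfl
      (by simp) (by simp) ?_ ?_
    · intro v _ w hw _
      simpa using hw
    · intro v _ C _ hC
      have h1 : (C : Set V) ⊆ {u | le u v} := fun u hu => hC u (Finset.mem_coe.1 hu)
      have h2 := Set.ncard_le_ncard h1 (hfin v).1
      rw [Set.ncard_coe_finset] at h2
      exact h2.trans (hfin v).2

end Pool.Agent.H5Rig
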