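import Pool.Agent.Lib.MP_37c7bf_co_h5.Defs

set_option autoImplicit false

namespace Pool.Agent.H5Rig

open Finset

universe u
variable {V : Type u}

/-- infinitesimal motions of the subframework on `X` -/
def MotOn (d : ℕ) (G : SimpleGraph V) (X : Set V) (p u : V → Fin d → ℝ) : Prop :=
  ∀ v ∈ X, ∀ w ∈ X, G.Adj v w → ∑ i, (p v i - p w i) * (u v i - u w i) = 0

def TrivOn (d : ℕ) (X : Set V) (p u : V → Fin d → ℝ) : Prop :=
  ∃ (A : Fin d → Fin d → ℝ) (b : Fin d → ℝ), (∀ i j, A i j = -A j i) ∧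
    ∀ v ∈ X, ∀ i, u v i = ∑ j, A i j * p v j + b i

def RigOn (d : ℕ) (G : SimpleGraph V) (X : Set V) : Prop :=
  ∃ p : V → Fin d → ℝ, ∀ u : V → Fin d → ℝ, MotOn d G X p u → TrivOn d X p u

theorem genRigid_induce_iff (d : ℕ) (G : SimpleGraph V) (X : Set V) :
    GenRigid d (G.induce X) ↔ RigOn d G X := by
  classical
  constructor
  · rintro ⟨p, hp⟩
    refine ⟨fun v => if h : v ∈ X then p ⟨v, h⟩ else 0, ?_⟩
    intro u hu
    have := hp (fun v => u v) (by
      intro v w hvw
      have h1 := hu v v.2 w w.2 (by simpa using hvw)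
      simpa [v.2, w.2] using h1)
    obtain ⟨A, b, hA, h⟩ := this
    refine ⟨A, b, hA, ?_⟩
    intro v hv i
    have := h ⟨v, hv⟩ i
    simpa [hv] using this
  · rintro ⟨p, hp⟩
    refine ⟨fun v => p v, ?_⟩
    intro u hu
    have := hp (fun v => if h : v ∈ X then u ⟨v, h⟩ else 0) (by
      intro v hv w hw hvw
      have h1 := hu ⟨v, hv⟩ ⟨w, hw⟩ (by simpa using hvw)
      simpa [hv, hw] using h1)
    obtain ⟨A, b, hA, h⟩ := this
    refine ⟨A, b, hA, ?_⟩
    intro v i
    have := h v v.2 i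
    simpa [v.2] using this

theorem genRigid_iff_univ (d : ℕ) (G : SimpleGraph V) :
    GenRigid d G ↔ RigOn d G Set.univ := by
  simp [GenRigid, RigOn, IsMotion, IsTrivial, MotOn, TrivOn]

/-- transfer of rigidity along an adjacency preserving bijection -/
theorem RigOn.transfer {d : ℕ} {G : SimpleGraph V} {X Y : Set V} (f g : V → V)
    (hf : ∀ v ∈ X, f v ∈ Y) (hg : ∀ w ∈ Y, g w ∈ X)
    (hgf : ∀ v ∈ X, g (f v) = v) (hfg : ∀ w ∈ Y, f (g w) = w)
    (hadj : ∀ v ∈ X, ∀ w ∈ X, G.Adj v w → G.Adj (f v) (f w))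
    (hX : RigOn d G X) : RigOn d G Y := by
  obtain ⟨p, hp⟩ := hX
  refine ⟨fun w => p (g w), ?_⟩
  intro u hu
  have hm : MotOn d G X p (fun v => u (f v)) := by
    intro v hv w hw hvw
    have := hu (f v) (hf v hv) (f w) (hf w hw) (hadj v hv w hw hvw)
    simpa [hgf v hv, hgf w hw] using this
  obtain ⟨A, b, hA, h⟩ := hp _ hm
  refine ⟨A, b, hA, ?_⟩
  intro w hw i
  have := h (g w) (hg w hw) i
  simpa [hfg w hw] using this

/-- a family of vectors separated by submodules is linearly independent -/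
theorem linIndep_of_sep {E ι : Type*} [AddCommGroup E] [Module ℝ E] [Finite ι]
    (x : ι → E) (Z : ι → Submodule ℝ E) (h1 : ∀ i j, i ≠ j → x i ∈ Z j) (h2 : ∀ i, x i ∉ Z i) :
    LinearIndependent ℝ x := by
  classical
  have := Fintype.ofFinite ι
  rw [Fintype.linearIndependent_iff]
  intro c hc i
  by_contra hne
  apply h2 i
  have h3 : ∑ j ∈ Finset.univ.erase i, c j • x j ∈ Z i := by
    apply Submodule.sum_mem
    intro j hj
    exact Submodule.smul_mem _ _ (h1 j i (Finset.ne_of_mem_erase hj))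
  have h4 : c i • x i ∈ Z i := by
    have h5 := Finset.add_sum_erase Finset.univ (fun j => c j • x j) (Finset.mem_univ i)
    rw [hc] at h5
    have h6 : c i • x i = - ∑ j ∈ Finset.univ.erase i, c j • x j := by
      exact eq_neg_of_add_eq_zero_left h5
    rw [h6]
    exact Submodule.neg_mem _ h3
  exact (Submodule.smul_mem_iff _ hne).1 h4

section
variable [DecidableEq V] {d : ℕ} {G : SimpleGraph V} {X S : Finset V} {m : ℕ}
  {P : Fin (m + 1) → Finset V}

/-- swapping two isomorphic pieces -/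
theorem rigOn_swap (hP : ∀ i, P i ⊆ X ∧ (P i).Nonempty ∧ Disjoint (P i) S)
    (hdis : ∀ i j, i ≠ j → Disjoint (P i) (P j))
    (hcl : ∀ i, ∀ v ∈ P i, ∀ w ∈ X, G.Adj v w → w ∈ P i ∪ S)
    (hiso : ∀ i j, ∃ σ : P i ≃ P j, (∀ v w : P i, G.Adj (σ v) (σ w) ↔ G.Adj v w) ∧
      ∀ v : P i, ∀ s ∈ S, G.Adj (σ v) s ↔ G.Adj v s) (i j : Fin (m + 1))
    (h : RigOn d G (↑(X \ P i) : Set V)) : RigOn d G (↑(X \ P j) : Set V) := by
  classical
  rcases eq_or_ne i j with rfl | hij
  · exact h
  obtain ⟨σ, hσ, hσS⟩ := hiso j i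
  -- f maps P j to P i
  refine RigOn.transfer (X := (↑(X \ P i) : Set V)) (Y := (↑(X \ P j) : Set V))
    (fun v => if hv : v ∈ P j then (σ ⟨v, hv⟩ : V) else v)
    (fun v => if hv : v ∈ P i then (σ.symm ⟨v, hv⟩ : V) else v) ?_ ?_ ?_ ?_ ?_ h
  · intro v hv
    rw [Finset.mem_coe, Finset.mem_sdiff] at hv
    by_cases hvj : v ∈ P j
    · simp only [hvj, dif_pos, Finset.coe_sdiff, Set.mem_sdiff, Finset.mem_coe]
      have h1 : (σ ⟨v, hvj⟩ : V) ∈ P i := (σ ⟨v, hvj⟩).2
      exact ⟨(hP i).1 h1, fun h2 => Finset.disjoint_left.1 (hdis i j hij) h1 h2⟩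
    · simp [hvj, hv.1]
  · intro v hv
    rw [Finset.mem_coe, Finset.mem_sdiff] at hv
    by_cases hvi : v ∈ P i
    · simp only [hvi, dif_pos, Finset.coe_sdiff, Set.mem_sdiff, Finset.mem_coe]
      have h1 : (σ.symm ⟨v, hvi⟩ : V) ∈ P j := (σ.symm ⟨v, hvi⟩).2
      exact ⟨(hP j).1 h1, fun h2 => Finset.disjoint_left.1 (hdis i j hij) h2 h1⟩
    · simp [hvi, hv.1]
  · intro v hv
    rw [Finset.mem_coe, Finset.mem_sdiff] at hv
    by_cases hvj : v ∈ P j
    · simp [hvj]
    · simp [hvj, hv.2]
  · intro v hv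
    rw [Finset.mem_coe, Finset.mem_sdiff] at hv
    by_cases hvi : v ∈ P i
    · simp [hvi]
    · simp [hvi, hv.2]
  · intro v hv w hw hvw
    rw [Finset.mem_coe, Finset.mem_sdiff] at hv hw
    by_cases hvj : v ∈ P j <;> by_cases hwj : w ∈ P j
    · simp only [hvj, hwj, dif_pos]
      exact (hσ ⟨v, hvj⟩ ⟨w, hwj⟩).2 hvw
    · simp only [hvj, hwj, dif_pos, dif_neg, not_false_eq_true]
      have h1 := hcl j v hvj w hw.1 hvw
      have h2 : w ∈ S := by
        rcases Finset.mem_union.1 h1 with h1 | h1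
        · exact absurd h1 hwj
        · exact h1
      exact (hσS ⟨v, hvj⟩ w h2).2 hvw
    · simp only [hvj, hwj, dif_pos, dif_neg, not_false_eq_true]
      have h1 := hcl j w hwj v hv.1 hvw.symm
      have h2 : v ∈ S := by
        rcases Finset.mem_union.1 h1 with h1 | h1
        · exact absurd h1 hvj
        · exact h1
      exact ((hσS ⟨w, hwj⟩ v h2).2 hvw.symm).symm
    · simpa [hvj, hwj] using hvw

/-- values on `S` of the infinitesimal motions of the piece `P` together with `S` -/
def pieceSub (d : ℕ) (G : SimpleGraph V) (P S : Finset V) (p : V → Fin d → ℝ) :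
    Submodule ℝ (S → Fin d → ℝ) where
  carrier := {f | ∃ z : V → Fin d → ℝ, MotOn d G (↑(P ∪ S) : Set V) p z ∧ ∀ s : S, z s = f s}
  add_mem' := by
    rintro a b ⟨z, hz, hza⟩ ⟨z', hz', hzb⟩
    refine ⟨z + z', ?_, fun s => by simp [hza s, hzb s]⟩
    intro v hv w hw hvw
    have h1 := hz v hv w hw hvw
    have h2 := hz' v hv w hw hvw
    have : ∑ i, (p v i - p w i) * ((z + z') v i - (z + z') w i)
        = ∑ i, (p v i - p w i) * (z v i - z w i) + ∑ i, (p v i - p w i) * (z' v i - z' w i) := by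
      rw [← Finset.sum_add_distrib]
      apply Finset.sum_congr rfl
      intro i _
      simp only [Pi.add_apply]; ring
    rw [this, h1, h2, add_zero]
  zero_mem' := ⟨0, by intro v _ w _ _; simp, fun s => by simp⟩
  smul_mem' := by
    rintro c a ⟨z, hz, hza⟩
    refine ⟨c • z, ?_, fun s => by simp [hza s]⟩
    intro v hv w hw hvw
    have h1 := hz v hv w hw hvw
    have : ∑ i, (p v i - p w i) * ((c • z) v i - (c • z) w i)
        = c * ∑ i, (p v i - p w i) * (z v i - z w i) := by
      rw [Finset.mul_sum]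
      apply Finset.sum_congr rfl
      intro i _
      simp only [Pi.smul_apply, smul_eq_mul]; ring
    rw [this, h1, mul_zero]

/-- deleting one piece out of more than `d |S|` isomorphic ones keeps rigidity -/
theorem rigOn_delete (hS : S ⊆ X) (hP : ∀ i, P i ⊆ X ∧ (P i).Nonempty ∧ Disjoint (P i) S)
    (hdis : ∀ i j, i ≠ j → Disjoint (P i) (P j))
    (hcl : ∀ i, ∀ v ∈ P i, ∀ w ∈ X, G.Adj v w → w ∈ P i ∪ S)
    (hiso : ∀ i j, ∃ σ : P i ≃ P j, (∀ v w : P i, G.Adj (σ v) (σ w) ↔ G.Adj v w) ∧
      ∀ v : P i, ∀ s ∈ S, G.Adj (σ v) s ↔ G.Adj v s) (hm : d * S.card < m + 1)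
    (h : RigOn d G (↑X : Set V)) (i0 : Fin (m + 1)) : RigOn d G (↑(X \ P i0) : Set V) := by
  classical
  by_contra hcon
  have hall : ∀ i, ¬ RigOn d G (↑(X \ P i) : Set V) := fun i hi =>
    hcon (rigOn_swap hP hdis hcl hiso i i0 hi)
  obtain ⟨p, hp⟩ := h
  have hex : ∀ i, ∃ u : V → Fin d → ℝ, MotOn d G (↑(X \ P i) : Set V) p u ∧
      ¬ TrivOn d (↑(X \ P i) : Set V) p u := by
    intro i
    have := hall i
    unfold RigOn at this
    push Not at this
    exact this p
  choose u hu hnt using hex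
  have hli : LinearIndependent ℝ (fun i : Fin (m + 1) => (fun s : S => u i s)) := by
    apply linIndep_of_sep _ (fun i => pieceSub d G (P i) S p)
    · intro i j hij
      refine ⟨u i, ?_, fun s => rfl⟩
      intro v hv w hw hvw
      have key : ∀ x ∈ P j ∪ S, x ∈ X \ P i := by
        intro x hx
        rcases Finset.mem_union.1 hx with hx | hx
        · exact Finset.mem_sdiff.2 ⟨(hP j).1 hx,
            fun h2 => Finset.disjoint_left.1 (hdis i j hij) h2 hx⟩
        · exact Finset.mem_sdiff.2 ⟨hS hx,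
            fun h2 => Finset.disjoint_left.1 (hP i).2.2 h2 hx⟩
      exact hu i v (Finset.mem_coe.2 (key v (Finset.mem_coe.1 hv))) w
        (Finset.mem_coe.2 (key w (Finset.mem_coe.1 hw))) hvw
    · rintro i ⟨z, hz, hzS⟩
      apply hnt i
      obtain ⟨A, b, hA, h⟩ := hp (fun v => if v ∈ P i then z v else u i v) (by
        intro v hv w hw hvw
        rw [Finset.mem_coe] at hv hw
        have aux : ∀ v w, v ∈ X → w ∈ X → G.Adj v w → v ∈ P i → w ∉ P i →
            z w = u i w ∧ w ∈ S := by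
          intro v w _ hw hvw hvi hwi
          have h1 := hcl i v hvi w hw hvw
          have h2 : w ∈ S := by
            rcases Finset.mem_union.1 h1 with h1 | h1
            · exact absurd h1 hwi
            · exact h1
          exact ⟨hzS ⟨w, h2⟩, h2⟩
        by_cases hvi : v ∈ P i <;> by_cases hwi : w ∈ P i
        · simp only [hvi, hwi, if_true]
          exact hz v (by simp [hvi]) w (by simp [hwi]) hvw
        · simp only [hvi, hwi, if_true, if_false]
          obtain ⟨h1, h2⟩ := aux v w hv hw hvw hvi hwi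
          rw [← h1]
          exact hz v (by simp [hvi]) w (by simp [h2]) hvw
        · simp only [hvi, hwi, if_true, if_false]
          obtain ⟨h1, h2⟩ := aux w v hw hv hvw.symm hwi hvi
          rw [← h1]
          exact hz v (by simp [h2]) w (by simp [hwi]) hvw
        · simp only [hvi, hwi, if_false]
          exact hu i v (by simp [hv, hvi]) w (by simp [hw, hwi]) hvw)
      refine ⟨A, b, hA, ?_⟩
      intro v hv k
      rw [Finset.mem_coe, Finset.mem_sdiff] at hv
      have := h v (Finset.mem_coe.2 hv.1) k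
      simpa [hv.2] using this
  have hcard := hli.fintype_card_le_finrank
  simp only [Fintype.card_fin] at hcard
  have hfr : Module.finrank ℝ (S → Fin d → ℝ) = S.card * d := by
    simp [Module.finrank_pi_fintype]
  rw [hfr] at hcard
  have : S.card * d = d * S.card := Nat.mul_comm _ _
  omega

/-- the linear map from infinitesimal isometries to velocity fields -/
def trivMap (d : ℕ) (p : V → Fin d → ℝ) :
    ((Fin d → Fin d → ℝ) × (Fin d → ℝ)) →ₗ[ℝ] (V → Fin d → ℝ) where
  toFun Ab := fun v i => ∑ j, Ab.1 i j * p v j + Ab.2 i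
  map_add' := by
    intro x y
    funext v i
    simp only [Prod.fst_add, Prod.snd_add, Pi.add_apply]
    rw [show ∑ j, (x.1 i j + y.1 i j) * p v j
      = ∑ j, x.1 i j * p v j + ∑ j, y.1 i j * p v j by
        rw [← Finset.sum_add_distrib]
        exact Finset.sum_congr rfl (fun j _ => by ring)]
    ring
  map_smul' := by
    intro c x
    funext v i
    simp only [Prod.smul_fst, Prod.smul_snd, Pi.smul_apply, smul_eq_mul, RingHom.id_apply]
    rw [mul_add, Finset.mul_sum]
    congr 1
    exact Finset.sum_congr rfl (fun j _ => by ring)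

/-- adding one more isomorphic piece keeps rigidity when there are many of them -/
theorem rigOn_add (hP : ∀ i, P i ⊆ X ∧ (P i).Nonempty ∧ Disjoint (P i) S)
    (hdis : ∀ i j, i ≠ j → Disjoint (P i) (P j))
    (hcl : ∀ i, ∀ v ∈ P i, ∀ w ∈ X, G.Adj v w → w ∈ P i ∪ S)
    (hiso : ∀ i j, ∃ σ : P i ≃ P j, (∀ v w : P i, G.Adj (σ v) (σ w) ↔ G.Adj v w) ∧
      ∀ v : P i, ∀ s ∈ S, G.Adj (σ v) s ↔ G.Adj v s) (hm : d * d + d < m)
    (h : RigOn d G (↑(X \ P (Fin.last m)) : Set V)) : RigOn d G (↑X : Set V) := by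
  classical
  by_contra hcon
  obtain ⟨p, hp⟩ := h
  choose σ hσ hσS using fun j : Fin m => hiso (Fin.last m) j.castSucc
  have hne : ∀ j : Fin m, Fin.last m ≠ j.castSucc := fun j => (Fin.castSucc_lt_last j).ne'
  -- positions
  set q : Fin m → V → Fin d → ℝ := fun j v =>
    if hv : v ∈ P (Fin.last m) then p (σ j ⟨v, hv⟩) else p v with hq
  have hex : ∀ j, ∃ u : V → Fin d → ℝ, MotOn d G (↑X : Set V) (q j) u ∧
      ¬ TrivOn d (↑X : Set V) (q j) u := by
    intro j
    unfold RigOn at hcon
    push Not at hcon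
    exact hcon (q j)
  choose u hu hnt using hex
  -- normalise
  have hnorm : ∀ j, ∃ u' : V → Fin d → ℝ, MotOn d G (↑X : Set V) (q j) u' ∧
      (∀ v ∈ X, v ∉ P (Fin.last m) → u' v = 0) ∧ ∃ v ∈ P (Fin.last m), u' v ≠ 0 := by
    intro j
    have hY : MotOn d G (↑(X \ P (Fin.last m)) : Set V) p (u j) := by
      intro v hv w hw hvw
      rw [Finset.mem_coe, Finset.mem_sdiff] at hv hw
      have := hu j v (Finset.mem_coe.2 hv.1) w (Finset.mem_coe.2 hw.1) hvw
      simpa [hq, hv.2, hw.2] using this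
    obtain ⟨A, b, hA, hAb⟩ := hp _ hY
    refine ⟨fun v i => u j v i - (∑ k, A i k * q j v k + b i), ?_, ?_, ?_⟩
    · intro v hv w hw hvw
      have h1 := hu j v hv w hw hvw
      have h2 : ∑ i, (q j v i - q j w i) * ((∑ k, A i k * q j v k + b i)
          - (∑ k, A i k * q j w k + b i)) = 0 := by
        have h3 : ∀ i, (∑ k, A i k * q j v k + b i) - (∑ k, A i k * q j w k + b i)
            = ∑ k, A i k * (q j v k - q j w k) := by
          intro i
          rw [show (∑ k, A i k * q j v k + b i) - (∑ k, A i k * q j w k + b i)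
            = ∑ k, A i k * q j v k - ∑ k, A i k * q j w k by ring]
          rw [← Finset.sum_sub_distrib]
          exact Finset.sum_congr rfl (fun k _ => by ring)
        simp only [h3]
        set x := fun i => q j v i - q j w i with hx
        have h4 : ∑ i, x i * ∑ k, A i k * x k = ∑ i, ∑ k, A i k * (x i * x k) := by
          refine Finset.sum_congr rfl (fun i _ => ?_)
          rw [Finset.mul_sum]
          exact Finset.sum_congr rfl (fun k _ => by ring)
        have h5 : ∑ i, ∑ k, A i k * (x i * x k) = - ∑ i, ∑ k, A i k * (x i * x k) := by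
          conv_lhs => rw [Finset.sum_comm]
          rw [← Finset.sum_neg_distrib]
          refine Finset.sum_congr rfl (fun i _ => ?_)
          rw [← Finset.sum_neg_distrib]
          refine Finset.sum_congr rfl (fun k _ => ?_)
          rw [hA k i]; ring
        have h6 : ∑ i, ∑ k, A i k * (x i * x k) = 0 := by linarith
        change ∑ i, x i * ∑ k, A i k * x k = 0
        rw [h4, h6]
      calc ∑ i, (q j v i - q j w i) * ((u j v i - (∑ k, A i k * q j v k + b i))
            - (u j w i - (∑ k, A i k * q j w k + b i)))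
          = ∑ i, (q j v i - q j w i) * (u j v i - u j w i)
            - ∑ i, (q j v i - q j w i) * ((∑ k, A i k * q j v k + b i)
          - (∑ k, A i k * q j w k + b i)) := by
            rw [← Finset.sum_sub_distrib]
            exact Finset.sum_congr rfl (fun i _ => by ring)
        _ = 0 := by rw [h1, h2, sub_zero]
    · intro v hv hvP
      funext i
      have := hAb v (by simp [hv, hvP]) i
      simp only [Pi.zero_apply]
      rw [this]
      simp [hq, hvP]
    · by_contra hall
      push Not at hall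
      apply hnt j
      refine ⟨A, b, hA, ?_⟩
      intro v hv i
      rw [Finset.mem_coe] at hv
      by_cases hvP : v ∈ P (Fin.last m)
      · have := congrFun (hall v hvP) i
        simp only [Pi.zero_apply] at this
        linarith
      · have := hAb v (by simp [hv, hvP]) i
        rw [this]
        simp [hq, hvP]
  choose u' hu' hu0 hu1 using hnorm
  -- transported motions
  set τ : Fin m → V → Fin d → ℝ := fun j v =>
    if hv : v ∈ P j.castSucc then u' j ((σ j).symm ⟨v, hv⟩) else 0 with hτ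
  have hτmot : ∀ j, MotOn d G (↑(X \ P (Fin.last m)) : Set V) p (τ j) := by
    intro j v hv w hw hvw
    rw [Finset.mem_coe, Finset.mem_sdiff] at hv hw
    have hone : ∀ v w (hvj : v ∈ P j.castSucc), v ∈ X → w ∈ X → w ∉ P (Fin.last m) →
        w ∉ P j.castSucc → G.Adj v w →
        ∑ i, (p v i - p w i) * (u' j ((σ j).symm ⟨v, hvj⟩) i - 0) = 0 := by
      intro v w hvj hvX hwX hwl hwj hvw
      have h1 := hcl _ v hvj w hwX hvw
      have h2 : w ∈ S := by
        rcases Finset.mem_union.1 h1 with h1 | h1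
        · exact absurd h1 hwj
        · exact h1
      have h3 : G.Adj ((σ j).symm ⟨v, hvj⟩ : V) w := by
        have := hσS j ((σ j).symm ⟨v, hvj⟩) w h2
        rw [Equiv.apply_symm_apply] at this
        exact this.1 hvw
      have h4 := hu' j _ (Finset.mem_coe.2 ((hP _).1 ((σ j).symm ⟨v, hvj⟩).2)) w
        (Finset.mem_coe.2 hwX) h3
      rw [hu0 j w hwX hwl] at h4
      simpa [hq, hwl] using h4
    by_cases hvj : v ∈ P j.castSucc <;> by_cases hwj : w ∈ P j.castSucc
    · have h3 : G.Adj ((σ j).symm ⟨v, hvj⟩ : V) ((σ j).symm ⟨w, hwj⟩ : V) := by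
        have := hσ j ((σ j).symm ⟨v, hvj⟩) ((σ j).symm ⟨w, hwj⟩)
        rw [Equiv.apply_symm_apply, Equiv.apply_symm_apply] at this
        exact this.1 hvw
      have h4 := hu' j _ (Finset.mem_coe.2 ((hP _).1 ((σ j).symm ⟨v, hvj⟩).2)) _
        (Finset.mem_coe.2 ((hP _).1 ((σ j).symm ⟨w, hwj⟩).2)) h3
      simpa [hq, hτ, hvj, hwj] using h4
    · have := hone v w hvj hv.1 hw.1 hw.2 hwj hvw
      simpa [hτ, hvj, hwj] using this
    · have := hone w v hwj hw.1 hv.1 hv.2 hvj hvw.symm
      have h5 : ∑ i, (p v i - p w i) * (0 - u' j ((σ j).symm ⟨w, hwj⟩) i) = 0 := by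
        refine Eq.trans (Finset.sum_congr rfl (fun i _ => ?_)) this
        ring
      simpa [hτ, hvj, hwj] using h5
    · simp [hτ, hvj, hwj]
  have hτtriv : ∀ j, ∃ Ab : (Fin d → Fin d → ℝ) × (Fin d → ℝ),
      ∀ v ∈ X, v ∉ P (Fin.last m) → τ j v = trivMap d p Ab v := by
    intro j
    obtain ⟨A, b, hA, h⟩ := hp _ (hτmot j)
    refine ⟨(A, b), fun v hv hvP => ?_⟩
    funext i
    exact h v (by simp [hv, hvP]) i
  choose Ab hAb using hτtriv
  have hli : LinearIndependent ℝ Ab := by
    rw [Fintype.linearIndependent_iff]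
    intro c hc j
    obtain ⟨v0, hv0, hne0⟩ := hu1 j
    set w0 : V := (σ j ⟨v0, hv0⟩ : V) with hw0
    have hw0P : w0 ∈ P j.castSucc := (σ j ⟨v0, hv0⟩).2
    have hw0l : w0 ∉ P (Fin.last m) := fun h2 =>
      Finset.disjoint_left.1 (hdis _ _ (hne j)) h2 hw0P
    have hw0X : w0 ∈ X := (hP _).1 hw0P
    have h1 : ∑ k, c k • τ k w0 = 0 := by
      have h2 : trivMap d p (∑ k, c k • Ab k) w0 = 0 := by rw [hc]; simp
      rw [map_sum] at h2
      simp only [map_smul, Finset.sum_apply, Pi.smul_apply] at h2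
      rw [← h2]
      exact Finset.sum_congr rfl (fun k _ => by rw [hAb k w0 hw0X hw0l])
    have h2 : ∀ k, k ≠ j → τ k w0 = 0 := by
      intro k hk
      have : w0 ∉ P k.castSucc := fun h3 =>
        Finset.disjoint_left.1 (hdis _ _ (fun h4 => hk (Fin.castSucc_injective _ h4))) h3 hw0P
      simp [hτ, this]
    rw [Finset.sum_eq_single j (fun k _ hk => by rw [h2 k hk, smul_zero])
      (fun h => absurd (Finset.mem_univ j) h)] at h1
    have h3 : τ j w0 = u' j v0 := by
      simp only [hτ, hw0P, dif_pos]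
      congr 1
      simp [hw0]
    rw [h3] at h1
    rcases smul_eq_zero.1 h1 with h4 | h4
    · exact h4
    · exact absurd h4 hne0
  have hcard := hli.fintype_card_le_finrank
  simp only [Fintype.card_fin] at hcard
  have hfr : Module.finrank ℝ ((Fin d → Fin d → ℝ) × (Fin d → ℝ)) = d * d + d := by
    simp [Module.finrank_prod, Module.finrank_pi_fintype]
  rw [hfr] at hcard
  omega

/-- the deletion rule preserves rigidity -/
theorem rigOn_step {Y : Finset V} (h : Step d G X Y) :
    RigOn d G (↑X : Set V) ↔ RigOn d G (↑Y : Set V) := by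
  obtain ⟨S, m, P, hS, hP, hdis, hcl, hiso, hm, rfl⟩ := h
  constructor
  · intro h
    exact rigOn_delete hS hP hdis hcl hiso (by omega) h _
  · intro h
    exact rigOn_add hP hdis hcl hiso (by omega) h

theorem rigOn_steps {Y : Finset V} (h : Relation.ReflTransGen (Step d G) X Y) :
    RigOn d G (↑X : Set V) ↔ RigOn d G (↑Y : Set V) := by
  induction h with
  | refl => rfl
  | tail _ h ih => exact ih.trans (rigOn_step h)

end

end Pool.Agent.H5Rig
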