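import Mathlib
import Pool.Agent.Lib.MP_37c7bf_co_h5.Defs
import Pool.Agent.Lib.MP_37c7bf_co_h5.Main

universe u

namespace Pool.Agent.Lib.MP_37c7bf_co_h5.TreedepthKernelResult

open Pool.Agent.H5Rig

/-- For all `d` and `t` there is `N` such that for every finite graph `G` of treedepth at most `t`,
the deletion rule (delete one of many pieces which are isomorphic over a common attachment set)
preserves generic rigidity in `ℝ^d`, and every graph obtained from `G` by applying the rule as long
as possible has at most `N` vertices. -/
theorem result (d t : ℕ) : ∃ N : ℕ, ∀ (V : Type u) [Fintype V] [DecidableEq V]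
    (G : SimpleGraph V), TreedepthLE G t →
      ∀ X : Finset V, Relation.ReflTransGen (Step d G) Finset.univ X →
        (GenRigid d G ↔ GenRigid d (G.induce (X : Set V))) ∧
        ((∀ Y, ¬ Step d G X Y) → X.card ≤ N) :=
  treedepth_kernel d t

end Pool.Agent.Lib.MP_37c7bf_co_h5.TreedepthKernelResult
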